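import Mathlib

/-!
MP_336050_an: commuting real matrices of size at least three have a non-zero vector whose orbit lies in
a plane, so it is not dense.
-/

set_option autoImplicit false

namespace Pool.Agent.Results.MP_336050_an.PlanarOrbits

open Matrix Module

/-- The orbit of `x` under the tuple `(A 0, ..., A (m - 1))`: the vectors
`A 0 ^ k 0 * A 1 ^ k 1 * ... * A (m - 1) ^ k (m - 1) * x`. -/
def orbit {n m : ℕ} (A : Fin m → Matrix (Fin n) (Fin n) ℝ) (x : Fin n → ℝ) : Set (Fin n → ℝ) :=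
  {y | ∃ k : Fin m → ℕ, y = (List.ofFn fun i => A i ^ k i).prod *ᵥ x}

/-- Pairwise commuting endomorphisms of a nonzero complex space of finite dimension have a common
eigenvector. -/
theorem common_eigenvector {ι V : Type} [AddCommGroup V] [Module ℂ V] [FiniteDimensional ℂ V]
    [Nontrivial V] (f : ι → End ℂ V) (hf : ∀ i j, Commute (f i) (f j)) :
    ∃ z : V, z ≠ 0 ∧ ∀ i, ∃ c : ℂ, f i z = c • z := by
  -- a nonzero invariant subspace of least dimension
  let P : ℕ → Prop := fun d => ∃ W : Submodule ℂ V, W ≠ ⊥ ∧ (∀ i, ∀ w ∈ W, f i w ∈ W) ∧ finrank ℂ W = d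
  have hP : ∃ d, P d := ⟨_, ⊤, top_ne_bot, fun _ _ _ => Submodule.mem_top, rfl⟩
  classical
  obtain ⟨W, hW0, hWi, hWd⟩ := Nat.find_spec hP
  have hmin : ∀ W' : Submodule ℂ V, W' ≤ W → W' ≠ ⊥ → (∀ i, ∀ w ∈ W', f i w ∈ W') → W' = W := by
    intro W' h1 h2 h3
    have h4 : Nat.find hP ≤ finrank ℂ W' := Nat.find_min' hP ⟨W', h2, h3, rfl⟩
    exact Submodule.eq_of_le_of_finrank_le h1 (by rw [hWd]; exact h4)
  obtain ⟨z, hzW, hz0⟩ := Submodule.exists_mem_ne_zero_of_ne_bot hW0
  refine ⟨z, hz0, fun i => ?_⟩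
  have hnt : Nontrivial W := ⟨⟨⟨z, hzW⟩, 0, fun h => hz0 (congrArg Subtype.val h)⟩⟩
  let g : End ℂ W := (f i).restrict (hWi i)
  obtain ⟨c, hc⟩ := End.exists_eigenvalue g
  obtain ⟨v, hv⟩ := hc.exists_hasEigenvector
  have hgv : g v = c • v := hv.apply_eq_smul
  let W' : Submodule ℂ V := W ⊓ End.eigenspace (f i) c
  have hW' : W' = W := by
    refine hmin W' inf_le_left ?_ ?_
    · intro h
      have h1 : (v : V) ∈ W' := by
        refine ⟨v.2, ?_⟩
        rw [SetLike.mem_coe, End.mem_eigenspace_iff]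
        exact congrArg Subtype.val hgv
      rw [h, Submodule.mem_bot] at h1
      exact hv.2 (Subtype.ext h1)
    · rintro j w ⟨h1, h2⟩
      refine ⟨hWi j w h1, ?_⟩
      rw [SetLike.mem_coe, End.mem_eigenspace_iff] at h2 ⊢
      have h3 : f i (f j w) = f j (f i w) := LinearMap.congr_fun (hf i j) w
      rw [h3, h2, map_smul]
  have hz : z ∈ W' := by rw [hW']; exact hzW
  exact ⟨c, (End.mem_eigenspace_iff).1 hz.2⟩

/-- **Commuting real matrices of size `n ≥ 3`**: there are a subspace `W` of dimension at most `2` and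
a non-zero vector `x` of `W` with orbit in `W`; this orbit is not dense. -/
theorem result (n m : ℕ) (hn : 3 ≤ n) (A : Fin m → Matrix (Fin n) (Fin n) ℝ)
    (hA : ∀ i j, Commute (A i) (A j)) :
    ∃ x : Fin n → ℝ, x ≠ 0 ∧ ¬ Dense (orbit A x) ∧
      ∃ W : Submodule ℝ (Fin n → ℝ), finrank ℝ W ≤ 2 ∧ orbit A x ⊆ W := by
  have hne : Nonempty (Fin n) := ⟨⟨0, by omega⟩⟩
  -- the complexification
  let B : Fin m → Matrix (Fin n) (Fin n) ℂ := fun i => (A i).map (algebraMap ℝ ℂ)
  have hB : ∀ i j, Commute (B i) (B j) := fun i j => by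
    have h := (hA i j).map (RingHom.mapMatrix (algebraMap ℝ ℂ) (m := Fin n))
    exact h
  obtain ⟨z, hz0, hz⟩ := common_eigenvector (fun i => Matrix.toLin' (B i)) (fun i j => by
    have h : Matrix.toLin' (B i * B j) = Matrix.toLin' (B j * B i) := by rw [hB i j]
    rw [Matrix.toLin'_mul, Matrix.toLin'_mul] at h
    exact h)
  let u : Fin n → ℝ := fun k => (z k).re
  let v : Fin n → ℝ := fun k => (z k).im
  have key : ∀ i, ∃ a b : ℝ, A i *ᵥ u = a • u - b • v ∧ A i *ᵥ v = b • u + a • v := by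
    intro i
    obtain ⟨c, hc⟩ := hz i
    have h1 : ∀ k, ∑ l, ((A i k l : ℝ) : ℂ) * z l = c * z k := by
      intro k
      have h2 := congrFun hc k
      simpa [Matrix.toLin'_apply, Matrix.mulVec, dotProduct, B] using h2
    refine ⟨c.re, c.im, ?_, ?_⟩
    · funext k
      have h2 := congrArg Complex.re (h1 k)
      simpa [Matrix.mulVec, dotProduct, u, v, Complex.mul_re] using h2
    · funext k
      have h2 := congrArg Complex.im (h1 k)
      simp only [Complex.im_sum, Complex.mul_im, Complex.ofReal_re, Complex.ofReal_im, zero_mul,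
        add_zero] at h2
      simp only [Matrix.mulVec, dotProduct, u, v, Pi.add_apply, Pi.smul_apply, smul_eq_mul]
      rw [h2]
      ring
  let W : Submodule ℝ (Fin n → ℝ) := Submodule.span ℝ {u, v}
  have huW : u ∈ W := Submodule.subset_span (by simp)
  have hvW : v ∈ W := Submodule.subset_span (by simp)
  have hWA : ∀ i, ∀ w ∈ W, A i *ᵥ w ∈ W := by
    intro i w hw
    obtain ⟨a, b, h1, h2⟩ := key i
    have h3 : W ≤ W.comap (Matrix.toLin' (A i)) := by
      refine Submodule.span_le.2 ?_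
      rintro y (rfl | rfl)
      · change Matrix.toLin' (A i) u ∈ W
        rw [Matrix.toLin'_apply, h1]
        exact W.sub_mem (W.smul_mem _ huW) (W.smul_mem _ hvW)
      · change Matrix.toLin' (A i) v ∈ W
        rw [Matrix.toLin'_apply, h2]
        exact W.add_mem (W.smul_mem _ huW) (W.smul_mem _ hvW)
    have h4 := h3 hw
    rw [Submodule.mem_comap, Matrix.toLin'_apply] at h4
    exact h4
  have hWl : ∀ (L : List (Matrix (Fin n) (Fin n) ℝ)), (∀ M ∈ L, ∀ w ∈ W, M *ᵥ w ∈ W) →
      ∀ w ∈ W, L.prod *ᵥ w ∈ W := by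
    intro L
    induction L with
    | nil => intro _ w hw; simpa using hw
    | cons M L ih =>
      intro h w hw
      rw [List.prod_cons, ← Matrix.mulVec_mulVec]
      exact h M (by simp) _ (ih (fun M' hM' => h M' (by simp [hM'])) w hw)
  have hWp : ∀ i (k : ℕ), ∀ w ∈ W, (A i ^ k) *ᵥ w ∈ W := by
    intro i k
    induction k with
    | zero => intro w hw; simpa using hw
    | succ k ih =>
      intro w hw
      rw [pow_succ, ← Matrix.mulVec_mulVec]
      exact ih _ (hWA i w hw)
  have hdim : finrank ℝ W ≤ 2 := by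
    have h1 := finrank_span_le_card (R := ℝ) ({u, v} : Set (Fin n → ℝ))
    refine h1.trans ?_
    rw [Set.toFinset_insert, Set.toFinset_singleton]
    exact (Finset.card_insert_le _ _).trans (by simp)
  obtain ⟨x, hxW, hx0⟩ : ∃ x ∈ W, x ≠ 0 := by
    by_contra h
    push Not at h
    apply hz0
    funext k
    have h1 := congrFun (h u huW) k
    have h2 := congrFun (h v hvW) k
    exact Complex.ext h1 h2
  have horb : orbit A x ⊆ W := by
    rintro y ⟨k, rfl⟩
    refine hWl _ ?_ x hxW
    intro M hM w hw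
    obtain ⟨i, rfl⟩ := (List.mem_ofFn' _ _).1 hM
    exact hWp i (k i) w hw
  refine ⟨x, hx0, ?_, W, hdim, horb⟩
  intro hd
  have h1 : (W : Set (Fin n → ℝ)) = Set.univ := by
    have h2 : IsClosed (W : Set (Fin n → ℝ)) := Submodule.closed_of_finiteDimensional W
    rw [← h2.closure_eq]
    exact (hd.mono horb).closure_eq
  have h3 : W = ⊤ := by
    rw [← Submodule.coe_eq_univ]
    exact h1
  rw [h3, finrank_top, Module.finrank_fin_fun] at hdim
  omega

end Pool.Agent.Results.MP_336050_an.PlanarOrbits
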